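import Pool.Agent.Q264.ColElevenMain
import Pool.Agent.Q264.ColEval

/-!
# Binary partitions with eleven colours have bounded 2-adic valuations
-/

set_option autoImplicit false

namespace Pool.Agent.Results.MP_8976f7_nt.Disproof

open PowerSeries

/-- The power series `1 / (1 - x ^ j)` with natural number coefficients. -/
def geo (j : ℕ) : PowerSeries ℕ := PowerSeries.mk fun n => if j ∣ n then 1 else 0

/-- `A m k n` is the coefficient of `x ^ n` in `∏_{i ≥ 0} (1 - x ^ (m ^ i)) ^ (-k)`; the factors with `i > n` have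
`m ^ i > n` and do not influence this coefficient. -/
noncomputable def A (m k n : ℕ) : ℕ := coeff n (∏ i ∈ Finset.range (n + 1), geo (m ^ i) ^ k)

/-- The exceptional set `E_p = {(p - 1)(u p ^ s - 1) : s ≥ 0, 1 ≤ u ≤ p - 1}`. -/
def E (p : ℕ) : Set ℕ := {k | ∃ s u : ℕ, 1 ≤ u ∧ u ≤ p - 1 ∧ k = (p - 1) * (u * p ^ s - 1)}

theorem not_dvd (n : ℕ) : ¬ 2 ^ 5 ∣ A 2 11 n := by
  intro h
  apply Q264.ColEleven.main n
  have h1 := Q264.ColPart.cast_A 2 11 n le_rfl
  have h2 : ((A 2 11 n : ℕ) : ℤ) = coeff n (Q264.ColPart.S 2 11) := h1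
  rw [← h2]
  have h3 : (((2 ^ 5 : ℕ) : ℤ)) ∣ (A 2 11 n : ℤ) := Int.natCast_dvd_natCast.2 h
  exact_mod_cast h3

theorem bound (n : ℕ) : padicValNat 2 (A 2 11 n) ≤ 4 := by
  have h0 : A 2 11 n ≠ 0 := by
    intro h
    apply not_dvd n
    rw [h]
    exact dvd_zero _
  by_contra hc
  push Not at hc
  exact not_dvd n ((padicValNat_dvd_iff_le h0).2 hc)

theorem not_mem : 11 ∉ E 2 := by
  rintro ⟨s, u, h1, h2, h3⟩
  obtain rfl : u = 1 := by omega
  have h4 : 2 ^ s = 12 := by
    have : 0 < 2 ^ s := by positivity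
    omega
  rcases Nat.lt_or_ge s 4 with h | h
  · interval_cases s <;> omega
  · have : 2 ^ 4 ≤ 2 ^ s := Nat.pow_le_pow_right (by norm_num) h
    omega

/-- For `p = 2` and `k = 11`, which is not in `E_2`, no exponent of `2` in the numbers `A 2 11 n` exceeds `4`; hence
the statement that the valuations are unbounded for every prime `p` and every positive `k` outside `E_p` is false. -/
theorem result :
    11 ∉ E 2 ∧ (∀ n : ℕ, padicValNat 2 (A 2 11 n) ≤ 4) ∧
    ¬ (∀ p : ℕ, p.Prime → ∀ k : ℕ, 1 ≤ k → k ∉ E p → ¬ BddAbove (Set.range fun n => padicValNat p (A p k n))) := by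
  refine ⟨not_mem, bound, fun h => ?_⟩
  refine h 2 Nat.prime_two 11 (by norm_num) not_mem ⟨4, ?_⟩
  rintro _ ⟨n, rfl⟩
  exact bound n

end Pool.Agent.Results.MP_8976f7_nt.Disproof
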